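import Mathlib

open PowerSeries Finset

namespace Pool.Agent.Results.MP_1a5b88_nt.Four

/-- `t m n`: the coefficient of `x ^ n` in `∏ i, (1 - x ^ 2 ^ i) ^ m`; the factors with `i > n`
are `1` modulo `x ^ (n + 1)` and are left out. -/
noncomputable def t (m n : ℕ) : ℤ :=
  coeff n (∏ i ∈ range (n + 1), (1 - X ^ 2 ^ i : ℤ⟦X⟧) ^ m)

def c (i : ℕ) : ℤ := [1, -17, 136, -680, 2380, -6188, 12376, -19448, 24310, -24310, 19448,
  -12376, 6188, -2380, 680, -136, 17, -1].getD i 0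

def lev : ℕ → List ℤ
  | 0 => [1]
  | N + 1 => (List.range (2 ^ (N + 1))).map fun n => ∑ i ∈ range 18, c i *
      if i ≤ n then if 2 ∣ n - i then (lev N).getD ((n - i) / 2) 0 else 0 else 0

noncomputable def P (N : ℕ) : ℤ⟦X⟧ := ∏ i ∈ range N, (1 - X ^ 2 ^ i) ^ 17

lemma P_succ (N : ℕ) :
    P (N + 1) = ∑ i ∈ range 18, C (c i) * (X ^ i * expand 2 two_ne_zero (P N)) := by
  have : (1 - X : ℤ⟦X⟧) ^ 17 = ∑ i ∈ range 18, C (c i) * X ^ i := by
    simp [sum_range_succ, c]; ring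
  simp only [← mul_assoc, ← sum_mul, ← this]
  rw [P, prod_range_succ', mul_comm, P]
  simp [← pow_mul, pow_succ' 2]

lemma P_lev (N n : ℕ) (h : n < 2 ^ N) : coeff n (P N) = (lev N).getD n 0 := by
  induction N generalizing n with
  | zero => obtain rfl : n = 0 := by omega
            simp [P, lev]
  | succ N ih =>
    rw [P_succ, lev, List.getD_eq_getElem _ _ (by simpa), List.getElem_map, List.getElem_range,
      map_sum]
    refine sum_congr rfl fun i _ => ?_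
    rw [coeff_C_mul, coeff_X_pow_mul', coeff_expand, ih _ (by omega)]

lemma t_eq (n : ℕ) (h1 : 8 ≤ n) (h2 : n < 2 ^ 9) : t 17 n = (lev 9).getD n 0 := by
  have h : X ^ 2 ^ 9 ∣ ∏ i ∈ Ico 9 (n + 1), (1 - X ^ 2 ^ i : ℤ⟦X⟧) ^ 17 - 1 := by
    refine prod_induction _ (fun f : ℤ⟦X⟧ => X ^ 2 ^ 9 ∣ f - 1) (fun a b ha hb => ?_) (by simp)
      fun i hi => ?_
    · have : a * b - 1 = (a - 1) * b + (b - 1) := by ring
      rw [this]
      exact (ha.mul_right _).add hb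
    · refine Dvd.dvd.trans ?_ (sub_one_dvd_pow_sub_one _ _)
      rw [sub_sub_cancel_left, dvd_neg]
      exact pow_dvd_pow _ (Nat.pow_le_pow_right two_pos (mem_Ico.1 hi).1)
  rw [t, ← prod_range_mul_prod_Ico _ (by omega : 9 ≤ n + 1), ← P, ← P_lev _ _ h2]
  have := X_pow_dvd_iff.1 (h.mul_left (P 9)) n h2
  rwa [mul_sub, map_sub, sub_eq_zero, mul_one] at this

theorem result : ¬ ∀ k ≥ 2, ∃ A : ℕ → ℕ, ∀ n, ∀ j < 2 ^ k,
    emultiplicity 2 (t (2 ^ k + 1) (2 ^ k * n + j)) = A (padicValNat 2 (n + 1)) := fun h => by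
  obtain ⟨A, hA⟩ := h 4 (by norm_num)
  have h1 : (2 : ℤ) ^ 19 ∣ t 17 504 := by
    rw [t_eq _ (by norm_num) (by norm_num)]; decide +kernel
  have h2 : ¬ (2 : ℤ) ^ 19 ∣ t 17 496 := by
    rw [t_eq _ (by norm_num) (by norm_num)]; decide +kernel
  rw [pow_dvd_iff_le_emultiplicity] at h1 h2
  exact h2 (h1.trans ((hA 31 8 (by norm_num)).trans (hA 31 0 (by norm_num)).symm).le)

end Pool.Agent.Results.MP_1a5b88_nt.Four
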